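import Pool.Agent.Mot73.Spec
import Pool.Agent.Mot84.Sub

/-!
# Objects with a simple Frobenius spectrum (MP_6c4da4_ag)

An object whose Frobenius eigenvalues (even and odd) are pairwise distinct has the Tate property
for `X ⊗ X'`, in every rigid tensor category with split idempotents and a Frobenius structure.
-/

open CategoryTheory MonoidalCategory Limits

universe v u

namespace MotP.M73

open Mot

noncomputable section

variable {C : Type u} [Category.{v} C] [Preadditive C] [Linear ℚ C] [MonoidalCategory C]
  [SymmetricCategory C] [MonoidalPreadditive C] [MonoidalLinear ℚ C] [RightRigidCategory C]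
  [IsIdempotentComplete C] (W : MotP.Frobenius C)

/-- net multiplicities at most one in absolute value suffice -/
theorem tateSquare_of_abs {X : C} (h : ∀ z : ℂ, (ν W X z).natAbs ≤ 1) :
    Mot84.TateSquare W X := by
  classical
  refine le_antisymm (rank_le W _) (le_trans ?_ (card_le W X))
  have h1 : (mult W (X ⊗ Xᘁ) : ℤ) = (((S W X).filter (fun z => ν W X z ≠ 0)).card : ℤ) := by
    rw [mult_square, Finset.card_filter]
    push_cast
    refine Finset.sum_congr rfl (fun z _ => ?_)
    have h2 := h z
    split_ifs with h3
    · have h4 : ν W X z = 1 ∨ ν W X z = -1 := by omega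
      rcases h4 with h4 | h4 <;> rw [h4] <;> norm_num
    · have h4 : ν W X z = 0 := by
        by_contra h5
        exact h3 h5
      rw [h4]
      norm_num
  have h2 : mult W (X ⊗ Xᘁ) = ((S W X).filter (fun z => ν W X z ≠ 0)).card := by
    exact_mod_cast h1
  have h3 : (W.even (X ⊗ Xᘁ)).count 1 = mult W (X ⊗ Xᘁ) := rfl
  rw [h3, h2]

/-- objects with a simple spectrum -/
theorem tateSquare_of_nodup {X : C} (h : (W.even X + W.odd X).Nodup) :
    Mot84.TateSquare W X := by
  classical
  apply tateSquare_of_abs
  intro z
  have h1 := Multiset.nodup_iff_count_le_one.mp h z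
  rw [Multiset.count_add] at h1
  unfold ν nu
  omega

end

end MotP.M73
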