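import Pool.Agent.Mot73.Defs
import Pool.Agent.Mot73.Simple

/-!
# The main theorem for objects with a simple Frobenius spectrum (MP_6c4da4_ag)
-/

open CategoryTheory MonoidalCategory Limits

universe v u

namespace Mot73

noncomputable section

variable {C : Type u} [Category.{v} C] [Preadditive C] [Linear ℚ C] [MonoidalCategory C]
  [SymmetricCategory C] [MonoidalPreadditive C] [MonoidalLinear ℚ C] [RightRigidCategory C]
  [IsIdempotentComplete C] (W : MotP.Frobenius C)

/-- objects with a simple spectrum are Tate objects, so nothing new is generated -/
theorem generated_iff (X : C) : Generated W X ↔ Mot84.Generated W X := by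
  constructor
  · intro h
    induction h with
    | tate X h => exact Mot84.Generated.of X h
    | simple X h => exact Mot84.Generated.of X (MotP.M73.tateSquare_of_nodup W h)
    | unit => exact Mot84.Generated.unit
    | tensor X Y _ _ hX hY => exact Mot84.Generated.tensor X Y hX hY
    | dual X _ hX => exact Mot84.Generated.dual X hX
    | sum X Y Z i p j q h1 h2 h3 _ _ hX hY =>
      exact Mot84.Generated.sum X Y Z i p j q h1 h2 h3 hX hY
    | summand X Y i p h _ hX => exact Mot84.Generated.summand X Y i p h hX
  · intro h
    induction h with
    | of X h => exact Generated.tate X h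
    | unit => exact Generated.unit
    | tensor X Y _ _ hX hY => exact Generated.tensor X Y hX hY
    | dual X _ hX => exact Generated.dual X hX
    | sum X Y Z i p j q h1 h2 h3 _ _ hX hY =>
      exact Generated.sum X Y Z i p j q h1 h2 h3 hX hY
    | summand X Y i p h _ hX => exact Generated.summand X Y i p h hX

omit [Linear ℚ C] [MonoidalCategory C] [SymmetricCategory C] [MonoidalPreadditive C]
  [MonoidalLinear ℚ C] [RightRigidCategory C] [IsIdempotentComplete C] in
lemma isAbelian_congr {P Q : ObjectProperty C} (h : P = Q) :
    MotP.IsAbelian P.FullSubcategory ↔ MotP.IsAbelian Q.FullSubcategory := by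
  subst h
  rfl

/-- the main theorem -/
theorem main [HasFiniteBiproducts C] :
    (MotP.IsAbelian C → MotP.IsAbelian (GeneratedCategory W)) ∧
    (MotP.IsAbelian (GeneratedCategory W) ↔
      ∀ (X Y : C) (f : X ⟶ Y), Generated W X → Generated W Y → MotP.NumTrivial f → f = 0) := by
  have h : (fun X : C => Generated W X : ObjectProperty C) = fun X : C => Mot84.Generated W X := by
    funext X
    exact propext (generated_iff W X)
  have h1 := isAbelian_congr h
  have h2 := Mot84.main W
  refine ⟨fun h3 => h1.mpr (h2.1 h3), h1.trans (h2.2.trans ?_)⟩
  constructor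
  · intro h3 X Y f hX hY
    exact h3 X Y f ((generated_iff W X).mp hX) ((generated_iff W Y).mp hY)
  · intro h3 X Y f hX hY
    exact h3 X Y f ((generated_iff W X).mpr hX) ((generated_iff W Y).mpr hY)

end

end Mot73
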