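import Pool.Agent.MotP.Van
import Pool.Agent.MotP.Defs

/-!
# Frobenius structures in the presence of numerically trivial morphisms (MP_6c4da4_ag)

The basic lemmas of `Pool.Agent.MotP.Base` (traces, eigenvalues, multiplicities) for a Frobenius
structure on a category which may have numerically trivial morphisms, and the upper bound: the
sections of `X` modulo the numerically trivial ones have dimension at most the multiplicity of the
eigenvalue `1` in `even X`.
-/

open CategoryTheory MonoidalCategory BraidedCategory Limits Polynomial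

universe v u

namespace MotP.M73

open Mot

noncomputable section

set_option linter.unusedSectionVars false

variable {C : Type u} [Category.{v} C] [Preadditive C] [Linear ℚ C] [MonoidalCategory C]
  [SymmetricCategory C] [MonoidalPreadditive C] [MonoidalLinear ℚ C] [RightRigidCategory C]
  (W : MotP.Frobenius C)

/-- the scalar of an endomorphism of the unit -/
def val (f : 𝟙_ C ⟶ 𝟙_ C) : ℚ := (W.scalar f).choose

lemma val_spec (f : 𝟙_ C ⟶ 𝟙_ C) : f = val W f • 𝟙 (𝟙_ C) := (W.scalar f).choose_spec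

include W in
lemma smul_inj {r s : ℚ} (h : r • 𝟙 (𝟙_ C) = s • 𝟙 (𝟙_ C)) : r = s := by
  have h1 : (r - s) • 𝟙 (𝟙_ C) = 0 := by rw [sub_smul, h, sub_self]
  rcases smul_eq_zero.mp h1 with h2 | h2
  · linarith
  · exact absurd h2 W.unit_ne

lemma val_eq {f : 𝟙_ C ⟶ 𝟙_ C} {r : ℚ} (h : f = r • 𝟙 (𝟙_ C)) : val W f = r :=
  smul_inj W ((val_spec W f).symm.trans h)

lemma val_add (f g : 𝟙_ C ⟶ 𝟙_ C) : val W (f + g) = val W f + val W g := by
  apply val_eq
  rw [add_smul, ← val_spec, ← val_spec]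

lemma val_smul (r : ℚ) (f : 𝟙_ C ⟶ 𝟙_ C) : val W (r • f) = r * val W f := by
  apply val_eq
  rw [mul_smul, ← val_spec]

lemma val_zero : val W (0 : 𝟙_ C ⟶ 𝟙_ C) = 0 := val_eq W (by simp)

lemma val_id : val W (𝟙 (𝟙_ C)) = 1 := val_eq W (by simp)

lemma val_sub (f g : 𝟙_ C ⟶ 𝟙_ C) : val W (f - g) = val W f - val W g := by
  rw [sub_eq_add_neg, ← neg_one_smul ℚ g, val_add, val_smul]
  ring

lemma eq_zero_of_val {f : 𝟙_ C ⟶ 𝟙_ C} (h : val W f = 0) : f = 0 := by
  rw [val_spec W f, h, zero_smul]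

/-- iterates of the Frobenius -/
def Fp (X : C) (n : ℕ) : X ⟶ X := pw (W.F.app X) n

lemma F_nat {X Y : C} (f : X ⟶ Y) : f ≫ W.F.app Y = W.F.app X ≫ f := W.F.naturality f

lemma Fp_nat {X Y : C} (f : X ⟶ Y) (n : ℕ) : f ≫ Fp W Y n = Fp W X n ≫ f := by
  induction n with
  | zero => simp [Fp, pw]
  | succ n ih =>
    have h1 : Fp W Y (n + 1) = Fp W Y n ≫ W.F.app Y := rfl
    have h2 : Fp W X (n + 1) = Fp W X n ≫ W.F.app X := rfl
    rw [h1, h2, ← Category.assoc, ih, Category.assoc, F_nat, Category.assoc]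

lemma Fp_tensor (X Y : C) (n : ℕ) : Fp W (X ⊗ Y) n = Fp W X n ⊗ₘ Fp W Y n := by
  induction n with
  | zero => simp [Fp, pw]
  | succ n ih =>
    have h1 : Fp W (X ⊗ Y) (n + 1) = Fp W (X ⊗ Y) n ≫ W.F.app (X ⊗ Y) := rfl
    have h2 : Fp W X (n + 1) = Fp W X n ≫ W.F.app X := rfl
    have h3 : Fp W Y (n + 1) = Fp W Y n ≫ W.F.app Y := rfl
    rw [h1, h2, h3, ih, W.F_tensor, MonoidalCategory.tensorHom_comp_tensorHom]

lemma Fp_of_one {X : C} (h : W.F.app X = 𝟙 X) (n : ℕ) : Fp W X n = 𝟙 X := by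
  induction n with
  | zero => rfl
  | succ n ih =>
    have h2 : Fp W X (n + 1) = Fp W X n ≫ W.F.app X := rfl
    rw [h2, ih, h]
    exact Category.comp_id _

/-- the traces of the Frobenius -/
def t (X : C) (n : ℕ) : ℚ := val W (tr X (Fp W X n))

lemma t_formula (X : C) (n : ℕ) :
    (t W X n : ℂ) = ((W.even X).map (fun z => z ^ n)).sum -
      ((W.odd X).map (fun z => z ^ n)).sum := by
  apply W.trace_formula X n
  have h1 : component W.F X ^ n = (pw (W.F.app X) n : End X) := end_pow _ n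
  rw [h1]
  exact val_spec W (tr X (Fp W X n))

lemma t_retract {X Y : C} (i : Y ⟶ X) (p : X ⟶ Y) (h : i ≫ p = 𝟙 Y) (n : ℕ) :
    t W Y n = val W (tr X ((p ≫ i) ≫ Fp W X n)) := by
  have h5 : Fp W Y n = i ≫ (p ≫ Fp W Y n) := by rw [← Category.assoc, h, Category.id_comp]
  have h6 : (p ≫ Fp W Y n) ≫ i = (p ≫ i) ≫ Fp W X n := by
    rw [Category.assoc, ← Fp_nat, ← Category.assoc]
  unfold t
  rw [h5, tr_comm, h6]

lemma t_split {X Y Z : C} (i : Y ⟶ X) (p : X ⟶ Y) (h : i ≫ p = 𝟙 Y) (j : Z ⟶ X) (q : X ⟶ Z)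
    (h' : j ≫ q = 𝟙 Z) (hs : p ≫ i + q ≫ j = 𝟙 X) (n : ℕ) : t W X n = t W Y n + t W Z n := by
  rw [t_retract W i p h, t_retract W j q h', ← val_add, ← tr_add, ← Preadditive.add_comp, hs,
    Category.id_comp]
  rfl

lemma tr_tensor (X Y : C) (f : X ⟶ X) (g : Y ⟶ Y) :
    tr (X ⊗ Y) (f ⊗ₘ g) = val W (tr Y g) • tr X f := by
  unfold tr
  rw [trP_indep (X' := (X ⊗ Y)ᘁ) (X'' := Yᘁ ⊗ Xᘁ)]
  exact trP_tensor f g _ (val_spec W _)

lemma t_tensor (X Y : C) (n : ℕ) : t W (X ⊗ Y) n = t W X n * t W Y n := by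
  unfold t
  rw [Fp_tensor, tr_tensor W, val_smul, mul_comm]

lemma t_unit (n : ℕ) : t W (𝟙_ C) n = 1 := by
  unfold t
  rw [Fp_of_one W W.F_unit, Frob.tr_unit, val_id]

/-- the multiplicity of the even eigenvalue 1 -/
def mult (X : C) : ℕ := (W.even X).count 1

lemma mult_eq (X : C) (P : Polynomial ℂ) (h1 : P.eval 1 = 1)
    (hα : ∀ z ∈ W.even X, z ≠ 1 → P.eval z = 0) (hβ : ∀ z ∈ W.odd X, z ≠ 1 → P.eval z = 0) :
    ∑ k ∈ P.support, P.coeff k * (t W X k : ℂ) = mult W X := by
  have h2 := sum_count P h1 (W.even X) hα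
  have h3 := sum_count P h1 (W.odd X) hβ
  rw [sum_eval] at h2 h3
  have h4 : (W.odd X).count 1 = 0 := Multiset.count_eq_zero.mpr (W.one_not_odd X)
  rw [h4, Nat.cast_zero] at h3
  have h5 : ∀ k ∈ P.support, P.coeff k * (t W X k : ℂ) =
      P.coeff k * ((W.even X).map (fun z => z ^ k)).sum -
        P.coeff k * ((W.odd X).map (fun z => z ^ k)).sum := by
    intro k _
    rw [t_formula, mul_sub]
  rw [Finset.sum_congr rfl h5, Finset.sum_sub_distrib, h2, h3, sub_zero]
  rfl

/-- additivity of the multiplicity -/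
lemma mult_add {X Y Z : C} (h : ∀ n, t W X n = t W Y n + t W Z n) :
    mult W X = mult W Y + mult W Z := by
  classical
  obtain ⟨P, h1, hP⟩ := exP ((W.even X + W.odd X + (W.even Y + W.odd Y) +
    (W.even Z + W.odd Z)).toFinset)
  have e1 := mult_eq W X P h1 (fun z hz => hP z (by simp [hz])) (fun z hz => hP z (by simp [hz]))
  have e2 := mult_eq W Y P h1 (fun z hz => hP z (by simp [hz])) (fun z hz => hP z (by simp [hz]))
  have e3 := mult_eq W Z P h1 (fun z hz => hP z (by simp [hz])) (fun z hz => hP z (by simp [hz]))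
  have h2 : (mult W X : ℂ) = mult W Y + mult W Z := by
    rw [← e1, ← e2, ← e3, ← Finset.sum_add_distrib]
    apply Finset.sum_congr rfl
    intro k _
    rw [h]
    push_cast
    ring
  exact_mod_cast h2

lemma mult_unit : mult W (𝟙_ C) = 1 := by
  classical
  obtain ⟨P, h1, hP⟩ := exP ((W.even (𝟙_ C) + W.odd (𝟙_ C)).toFinset)
  have e1 := mult_eq W (𝟙_ C) P h1 (fun z hz => hP z (by simp [hz]))
    (fun z hz => hP z (by simp [hz]))
  have h2 : (mult W (𝟙_ C) : ℂ) = 1 := by
    rw [← e1, ← h1, Polynomial.eval_eq_sum, Polynomial.sum]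
    refine Finset.sum_congr rfl (fun k _ => ?_)
    rw [t_unit]
    simp
  exact_mod_cast h2

section Split

variable [IsIdempotentComplete C]

include W in
/-- a section which is not numerically trivial splits off a copy of the unit -/
lemma split_off {X : C} (f : 𝟙_ C ⟶ X) (g : X ⟶ 𝟙_ C) (hfg : f ≫ g ≠ 0) :
    ∃ (g' : X ⟶ 𝟙_ C) (Y : C) (i : Y ⟶ X) (p : X ⟶ Y), f ≫ g' = 𝟙 _ ∧ i ≫ p = 𝟙 Y ∧
      g' ≫ f + p ≫ i = 𝟙 X := by
  have h1 := val_spec W (f ≫ g)
  have h2 : val W (f ≫ g) ≠ 0 := by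
    intro h3
    rw [h3, zero_smul] at h1
    exact hfg h1
  set g' : X ⟶ 𝟙_ C := (val W (f ≫ g))⁻¹ • g with hg'
  have h3 : f ≫ g' = 𝟙 _ := by
    rw [hg', Linear.comp_smul, h1, val_smul, val_id, mul_one, smul_smul,
      inv_mul_cancel₀ h2, one_smul]
  have h4 : (𝟙 X - g' ≫ f) ≫ (𝟙 X - g' ≫ f) = 𝟙 X - g' ≫ f := by
    rw [Preadditive.sub_comp, Preadditive.comp_sub, Preadditive.comp_sub, Category.id_comp,
      Category.comp_id, Category.id_comp, Category.assoc, ← Category.assoc f g', h3,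
      Category.id_comp]
    abel
  obtain ⟨Y, i, p, h5, h6⟩ := IsIdempotentComplete.idempotents_split X _ h4
  exact ⟨g', Y, i, p, h3, h5, by rw [h6]; abel⟩

/-- the upper bound -/
lemma rank_aux (n : ℕ) : ∀ X : C, mult W X = n →
    Module.rank ℚ ((𝟙_ C ⟶ X) ⧸ ntSections X) ≤ n := by
  induction n with
  | zero =>
    intro X hm
    have h : ntSections X = ⊤ := by
      rw [eq_top_iff]
      intro f _ g
      by_contra hfg
      obtain ⟨g', Y, i, p, h3, h5, h6⟩ := split_off W f g hfg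
      have h7 := mult_add W (t_split W f g' h3 i p h5 h6)
      rw [mult_unit, hm] at h7
      omega
    have h' : Subsingleton ((𝟙_ C ⟶ X) ⧸ ntSections X) :=
      Submodule.Quotient.subsingleton_iff.mpr h
    rw [rank_subsingleton']
    simp
  | succ n ih =>
    intro X hm
    by_cases hex : ∃ (f : 𝟙_ C ⟶ X) (g : X ⟶ 𝟙_ C), f ≫ g ≠ 0
    · obtain ⟨f, g, hfg⟩ := hex
      obtain ⟨g', Y, i, p, h3, h5, h6⟩ := split_off W f g hfg
      have h7 := mult_add W (t_split W f g' h3 i p h5 h6)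
      rw [mult_unit, hm] at h7
      have hr := ih Y (by omega)
      set φ0 : (𝟙_ C ⟶ X) →ₗ[ℚ] (𝟙_ C ⟶ Y) := Linear.rightComp ℚ (𝟙_ C) p with hφ0
      have hle : ntSections X ≤ (ntSections Y).comap φ0 := by
        intro h hh k
        have e1 : (h ≫ p) ≫ k = h ≫ (p ≫ k) := Category.assoc _ _ _
        exact e1.trans (hh (p ≫ k))
      set φ : ((𝟙_ C ⟶ X) ⧸ ntSections X) →ₗ[ℚ] ((𝟙_ C ⟶ Y) ⧸ ntSections Y) :=
        Submodule.mapQ _ _ φ0 hle with hφ
      rw [← LinearMap.rank_range_add_rank_ker φ]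
      have h8 : Module.rank ℚ (LinearMap.range φ) ≤ n := (Submodule.rank_le _).trans hr
      have h9 : LinearMap.ker φ ≤ Submodule.span ℚ {(Submodule.Quotient.mk f :
          (𝟙_ C ⟶ X) ⧸ ntSections X)} := by
        intro y hy
        obtain ⟨h, rfl⟩ := Submodule.Quotient.mk_surjective _ y
        rw [LinearMap.mem_ker, hφ, Submodule.mapQ_apply, Submodule.Quotient.mk_eq_zero] at hy
        have hh' : h ≫ p ∈ ntSections Y := hy
        rw [Submodule.mem_span_singleton]
        refine ⟨val W (h ≫ g'), ?_⟩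
        rw [← Submodule.Quotient.mk_smul, Submodule.Quotient.eq]
        intro k
        have h10 : val W (h ≫ g') • f - h = - ((h ≫ p) ≫ i) := by
          have h11 : h = h ≫ (g' ≫ f + p ≫ i) := by
            rw [h6, Category.comp_id]
          conv_lhs =>
            rhs
            rw [h11]
          have h12 : h ≫ g' ≫ f = val W (h ≫ g') • f := by
            rw [← Category.assoc]
            conv_lhs => rw [val_spec W (h ≫ g')]
            rw [Linear.smul_comp, Category.id_comp]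
          rw [Preadditive.comp_add, h12, Category.assoc]
          abel
        rw [h10, Preadditive.neg_comp, Category.assoc, hh' (i ≫ k), neg_zero]
      have h10 : Module.rank ℚ (LinearMap.ker φ) ≤ 1 := by
        refine (Submodule.rank_mono h9).trans ?_
        refine (rank_span_le _).trans ?_
        simp
      push_cast
      exact add_le_add h8 h10
    · push Not at hex
      have h : ntSections X = ⊤ := by
        rw [eq_top_iff]
        intro f _ g
        exact hex f g
      have h' : Subsingleton ((𝟙_ C ⟶ X) ⧸ ntSections X) :=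
        Submodule.Quotient.subsingleton_iff.mpr h
      rw [rank_subsingleton']
      simp

/-- the sections modulo the numerically trivial ones have dimension at most the multiplicity of
the even eigenvalue 1 -/
theorem rank_le (X : C) : Module.rank ℚ ((𝟙_ C ⟶ X) ⧸ ntSections X) ≤ mult W X :=
  rank_aux W _ X rfl

end Split

end

end MotP.M73
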