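import Pool.Agent.Mot84.Defs

/-!
# Definitions: the objects generated by those with the Tate property for `X ⊗ X'` and by those with
a simple Frobenius spectrum (MP_6c4da4_ag)
-/

open CategoryTheory MonoidalCategory

universe v u

namespace Mot73

noncomputable section

variable {C : Type u} [Category.{v} C] [Preadditive C] [Linear ℚ C] [MonoidalCategory C]
  [SymmetricCategory C] [MonoidalPreadditive C] [MonoidalLinear ℚ C] [RightRigidCategory C]

/-- `X` has a simple Frobenius spectrum: all its Frobenius eigenvalues, even and odd ones together,
are pairwise distinct. -/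
def SimpleSpectrum (W : MotP.Frobenius C) (X : C) : Prop := (W.even X + W.odd X).Nodup

/-- The objects generated by the objects `X` with the Tate property for `X ⊗ X'` and by the objects
with a simple Frobenius spectrum, under tensor products, duals, direct sums and direct summands. -/
inductive Generated (W : MotP.Frobenius C) : C → Prop
  | tate (X : C) : Mot84.TateSquare W X → Generated W X
  | simple (X : C) : SimpleSpectrum W X → Generated W X
  | unit : Generated W (𝟙_ C)
  | tensor (X Y : C) : Generated W X → Generated W Y → Generated W (X ⊗ Y)
  | dual (X : C) : Generated W X → Generated W Xᘁ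
  | sum (X Y Z : C) (i : X ⟶ Z) (p : Z ⟶ X) (j : Y ⟶ Z) (q : Z ⟶ Y) : i ≫ p = 𝟙 X →
      j ≫ q = 𝟙 Y → p ≫ i + q ≫ j = 𝟙 Z → Generated W X → Generated W Y → Generated W Z
  | summand (X Y : C) (i : Y ⟶ X) (p : X ⟶ Y) : i ≫ p = 𝟙 Y → Generated W X → Generated W Y

/-- The full subcategory of the generated objects. -/
abbrev GeneratedCategory (W : MotP.Frobenius C) : Type u :=
  ObjectProperty.FullSubcategory (fun X : C => Generated W X)

end

end Mot73
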