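import Pool.Agent.Mot73.Base

/-!
# The spectrum of `X ⊗ X'` in the presence of numerically trivial morphisms (MP_6c4da4_ag)

For a Frobenius structure on a category which may have numerically trivial morphisms, the
multiplicity of the eigenvalue `1` in `even (X ⊗ X')` is `∑ ν(z)²`, where `ν(z)` is the net
multiplicity of `z` in the spectrum of `X`; and the endomorphisms of `X` modulo the numerically
trivial ones contain a polynomial ring in Frobenius of dimension the number of the `z` with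
`ν(z) ≠ 0`.
-/

open CategoryTheory MonoidalCategory BraidedCategory Limits Polynomial

universe v u

namespace MotP.M73

open Mot

noncomputable section

set_option linter.unusedSectionVars false

variable {C : Type u} [Category.{v} C] [Preadditive C] [Linear ℚ C] [MonoidalCategory C]
  [SymmetricCategory C] [MonoidalPreadditive C] [MonoidalLinear ℚ C] [RightRigidCategory C]
  (W : MotP.Frobenius C)

/-- the Frobenius as an element of the endomorphism algebra -/
def FE (X : C) : End X := W.F.app X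

lemma FE_pow (X : C) (n : ℕ) : (FE W X) ^ n = (Fp W X n : End X) := end_pow _ n

/-- the set of eigenvalues -/
def S (X : C) : Finset ℂ := (W.even X + W.odd X).toFinset

/-- net multiplicities -/
def ν (X : C) (z : ℂ) : ℤ := nu (W.even X) (W.odd X) z

lemma tr_poly (X : C) (g : ℚ[X]) :
    (val W (tr X (aeval (FE W X) g : End X)) : ℂ) = ∑ z ∈ S W X, (ν W X z : ℂ) * aeval z g := by
  induction g using Polynomial.induction_on' with
  | add p q hp hq =>
    rw [map_add]
    have h1 : tr X ((aeval (FE W X) p + aeval (FE W X) q : End X)) =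
        tr X (aeval (FE W X) p : End X) + tr X (aeval (FE W X) q : End X) := tr_add _ _
    rw [h1, val_add]
    push_cast
    rw [hp, hq, ← Finset.sum_add_distrib]
    apply Finset.sum_congr rfl
    intro z _
    rw [map_add]
    ring
  | monomial n a =>
    rw [aeval_monomial, FE_pow, ← Algebra.smul_def]
    have h1 : tr X ((a • (Fp W X n : End X) : End X)) = a • tr X (Fp W X n) := tr_smul _ _
    rw [h1, val_smul]
    push_cast
    have h2 := t_formula W X n
    unfold t at h2
    rw [h2, sum_nu, Finset.mul_sum]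
    apply Finset.sum_congr rfl
    intro z _
    rw [aeval_monomial]
    unfold ν
    change _ = _ * ((algebraMap ℚ ℂ a) * z ^ n)
    simp
    ring

lemma ν_of_notMem {X : C} {z : ℂ} (h : z ∉ S W X) : ν W X z = 0 := nu_of_notMem h

lemma mem_of_ν {X : C} {z : ℂ} (h : ν W X z ≠ 0) : z ∈ S W X := by
  by_contra h1
  exact h (ν_of_notMem W h1)

/-- a polynomial in Frobenius whose products with all endomorphisms have trace zero vanishes at
all eigenvalues with a net multiplicity -/
lemma root_of_nt {X : C} (g : ℚ[X])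
    (hg : ∀ h : End X, tr X ((aeval (FE W X) g : End X) * h : End X) = 0) {z : ℂ}
    (hz : ν W X z ≠ 0) : aeval z g = 0 := by
  have h1 : ∀ n : ℕ, ∑ z ∈ S W X, ((ν W X z : ℂ) * aeval z g) * z ^ n = 0 := by
    intro n
    have h2 := tr_poly W X (g * Polynomial.X ^ n)
    have h3 : aeval (FE W X) (g * Polynomial.X ^ n) = aeval (FE W X) g * (FE W X) ^ n := by
      rw [map_mul, map_pow, aeval_X]
    rw [h3, hg, val_zero, Rat.cast_zero] at h2
    rw [h2]
    apply Finset.sum_congr rfl
    intro z _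
    rw [map_mul, map_pow, aeval_X]
    ring
  have h2 := lag (S W X) _ h1 z (mem_of_ν W hz)
  rcases mul_eq_zero.mp h2 with h4 | h4
  · exfalso
    apply hz
    exact_mod_cast h4
  · exact h4

/-- the endomorphisms whose products with all endomorphisms have trace zero -/
def NT (X : C) (f : End X) : Prop := ∀ h : End X, tr X (f * h : End X) = 0

lemma tr_mul_comm {X : C} (f g : End X) : tr X (f * g : End X) = tr X (g * f : End X) :=
  tr_comm (X := X) (Y := X) g f

lemma NT.mul_right {X : C} {f : End X} (hf : NT X f) (g : End X) : NT X (f * g) := by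
  intro h
  rw [mul_assoc]
  exact hf _

lemma NT.mul_left {X : C} {f : End X} (hf : NT X f) (g : End X) : NT X (g * f) := by
  intro h
  rw [tr_mul_comm, ← mul_assoc, tr_mul_comm]
  exact hf _

/-- numerically trivial names -/
lemma nm_mem_iff {X : C} (f : End X) : nm (f : X ⟶ X) ∈ ntSections (X ⊗ Xᘁ) ↔ NT X f := by
  constructor
  · intro h k
    have h1 := h ((k : X ⟶ X) ▷ Xᘁ ≫ ev X Xᘁ)
    rw [nm_ev] at h1
    rw [tr_mul_comm]
    exact h1
  · intro h g
    obtain ⟨k, rfl⟩ := ev_surj g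
    rw [nm_ev]
    have h1 := h k
    rw [tr_mul_comm] at h1
    exact h1

/-- the trace of an endomorphism of the dual -/
lemma tr_dual {X : C} (G : Xᘁ ⟶ Xᘁ) (H : X ⟶ X) (h : η_ X Xᘁ ≫ X ◁ G = nm H) :
    tr Xᘁ G = tr X H := by
  let inst : ExactPairing Xᘁ X := exactPairing_swap X Xᘁ
  have h1 : tr Xᘁ G = @trP C _ _ _ Xᘁ X inst G := by
    unfold tr
    exact trP_indep G
  rw [h1]
  unfold trP ev
  have h2 : @ExactPairing.coevaluation C _ _ Xᘁ X inst = η_ X Xᘁ ≫ (β_ Xᘁ X).inv := rfl
  have h3 : @ExactPairing.evaluation C _ _ Xᘁ X inst = (β_ X Xᘁ).hom ≫ ε_ X Xᘁ := rfl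
  rw [h2, h3]
  have h4 : (β_ Xᘁ X).inv = (β_ X Xᘁ).hom :=
    (SymmetricCategory.braiding_swap_eq_inv_braiding Xᘁ X).symm
  rw [h4, SymmetricCategory.symmetry_assoc, Category.assoc, ← braiding_naturality_right_assoc,
    ← Category.assoc, h]
  unfold nm tr trP ev
  rw [Category.assoc]

/-- the inverse of the power of Frobenius and the trace on the dual -/
lemma dual_inv (X : C) (n : ℕ) : ∃ H : End X, (H : X ⟶ X) ≫ Fp W X n = 𝟙 X ∧
    t W Xᘁ n = val W (tr X H) := by
  obtain ⟨H, hH⟩ := nm_surj (η_ X Xᘁ ≫ X ◁ Fp W Xᘁ n)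
  have h1 : η_ X Xᘁ ≫ (Fp W X n ⊗ₘ Fp W Xᘁ n) = η_ X Xᘁ := by
    rw [← Fp_tensor, Fp_nat, Fp_of_one W W.F_unit, Category.id_comp]
  refine ⟨H, ?_, ?_⟩
  · apply nm_inj
    rw [nm_comp, hH, Category.assoc, ← tensorHom_def', h1]
    unfold nm
    rw [id_whiskerRight, Category.comp_id]
  · unfold t
    rw [tr_dual _ H hH.symm]

section Split

variable [IsIdempotentComplete C]

/-- a polynomial in Frobenius is numerically trivial, and its value at zero is not zero -/
lemma exists_nt_poly (X : C) : ∃ g : ℚ[X], g.coeff 0 ≠ 0 ∧ NT X (aeval (FE W X) g) := by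
  classical
  -- a nonzero numerically trivial polynomial exists
  have h1 : ∃ g : ℚ[X], g ≠ 0 ∧ NT X (aeval (FE W X) g) := by
    by_contra hcon
    push Not at hcon
    have hr := rank_le W (X ⊗ Xᘁ)
    set d := mult W (X ⊗ Xᘁ) with hd
    let φ : (degreeLT ℚ (d + 1)) →ₗ[ℚ] ((𝟙_ C ⟶ X ⊗ Xᘁ) ⧸ ntSections (X ⊗ Xᘁ)) :=
      (ntSections (X ⊗ Xᘁ)).mkQ ∘ₗ (nmL X X) ∘ₗ (aeval (FE W X)).toLinearMap ∘ₗ
        (degreeLT ℚ (d + 1)).subtype
    have hφ : Function.Injective φ := by
      rw [injective_iff_map_eq_zero]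
      intro g hg
      have h2 : nm ((aeval (FE W X) (g : ℚ[X]) : End X) : X ⟶ X) ∈ ntSections (X ⊗ Xᘁ) := by
        rw [← Submodule.Quotient.mk_eq_zero]
        exact hg
      rw [nm_mem_iff] at h2
      by_contra hne
      exact hcon (g : ℚ[X]) (fun h => hne (Subtype.ext h)) h2
    have h2 := LinearMap.lift_rank_le_of_injective φ hφ
    have h3 : Module.rank ℚ (degreeLT ℚ (d + 1)) = (d + 1 : ℕ) := by
      rw [(degreeLTEquiv ℚ (d + 1)).rank_eq]
      simp
    rw [h3, Cardinal.lift_natCast, Cardinal.lift_uzero] at h2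
    have h4 := h2.trans hr
    rw [Nat.cast_le] at h4
    omega
  obtain ⟨g, hg0, hg⟩ := h1
  obtain ⟨H1, hH1, -⟩ := dual_inv W X 1
  have hF : FE W X * (H1 : End X) = 1 := by
    have h1 : Fp W X 1 = FE W X := by
      have h2 := FE_pow W X 1
      rw [pow_one] at h2
      exact h2.symm
    rw [h1] at hH1
    exact hH1
  -- division by powers of T
  have key : ∀ n : ℕ, ∀ g : ℚ[X], g.natDegree ≤ n → g ≠ 0 → NT X (aeval (FE W X) g) →
      ∃ g : ℚ[X], g.coeff 0 ≠ 0 ∧ NT X (aeval (FE W X) g) := by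
    intro n
    induction n with
    | zero =>
      intro g hn hg0 hg
      refine ⟨g, ?_, hg⟩
      intro h0
      apply hg0
      rw [eq_C_of_natDegree_eq_zero (Nat.le_zero.mp hn), h0, C_0]
    | succ n ih =>
      intro g hn hg0 hg
      by_cases h0 : g.coeff 0 = 0
      · have hdiv := Polynomial.divX_mul_X_add g
        rw [h0, C_0, add_zero] at hdiv
        refine ih (divX g) ?_ ?_ ?_
        · rw [natDegree_divX_eq_natDegree_tsub_one]
          omega
        · intro h
          rw [h, zero_mul] at hdiv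
          exact hg0 hdiv.symm
        · have h2 : aeval (FE W X) g = aeval (FE W X) (divX g) * FE W X := by
            conv_lhs => rw [← hdiv]
            rw [map_mul, aeval_X]
          have h3 : aeval (FE W X) (divX g) = aeval (FE W X) g * H1 := by
            rw [h2, mul_assoc, hF, mul_one]
          rw [h3]
          exact hg.mul_right _
      · exact ⟨g, h0, hg⟩
  exact key g.natDegree g le_rfl hg0 hg

/-- the inverse of Frobenius is a polynomial in Frobenius up to numerically trivial endomorphisms -/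
lemma inv_poly (X : C) : ∃ g h : ℚ[X], Polynomial.X * g - 1 = h ∧ NT X (aeval (FE W X) h) := by
  obtain ⟨m, hm, hnt⟩ := exists_nt_poly W X
  have hdiv := Polynomial.X_mul_divX_add m
  refine ⟨Polynomial.C (-(m.coeff 0)⁻¹) * divX m, Polynomial.C (-(m.coeff 0)⁻¹) * m, ?_, ?_⟩
  · have h1 : Polynomial.C (-(m.coeff 0)⁻¹) * m = Polynomial.C (-(m.coeff 0)⁻¹) *
        (Polynomial.X * divX m + Polynomial.C (m.coeff 0)) := by
      rw [hdiv]
    rw [h1, mul_add, ← C_mul]
    have h2 : -(m.coeff 0)⁻¹ * m.coeff 0 = -1 := by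
      rw [neg_mul, inv_mul_cancel₀ hm]
    rw [h2]
    simp only [map_neg, C_1]
    ring
  · rw [map_mul]
    exact hnt.mul_left _

/-- the traces of Frobenius on the dual, and the eigenvalues are not zero -/
lemma t_dual (X : C) : (∀ n, (t W Xᘁ n : ℂ) = ∑ z ∈ S W X, (ν W X z : ℂ) * (z⁻¹) ^ n) ∧
    ∀ z, ν W X z ≠ 0 → z ≠ 0 := by
  obtain ⟨g, h, hgh, hnt⟩ := inv_poly W X
  have hz : ∀ z, ν W X z ≠ 0 → z * aeval z g = 1 := by
    intro z hz
    have h1 := congrArg (aeval z) hgh
    rw [root_of_nt W h hnt hz, map_sub, map_one, map_mul, aeval_X, sub_eq_zero] at h1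
    exact h1
  refine ⟨?_, ?_⟩
  · intro n
    obtain ⟨H, hH, ht⟩ := dual_inv W X n
    have h2 : FE W X ^ n * (H : End X) = 1 := by
      rw [FE_pow]
      exact hH
    have h3 : NT X (aeval (FE W X) (g ^ n) * FE W X ^ n - 1) := by
      obtain ⟨q, hq⟩ := sub_dvd_pow_sub_pow (Polynomial.X * g : ℚ[X]) 1 n
      rw [one_pow, hgh] at hq
      have h4 : aeval (FE W X) (g ^ n) * FE W X ^ n - 1 =
          aeval (FE W X) h * aeval (FE W X) q := by
        rw [← map_mul, ← hq, map_sub, map_one, mul_pow, mul_comm, map_mul, map_pow (aeval (FE W X))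
          (Polynomial.X : ℚ[X]), aeval_X]
      rw [h4]
      exact hnt.mul_right _
    have h4 : tr X (H : X ⟶ X) = tr X (aeval (FE W X) (g ^ n) : End X) := by
      have h5 := (h3.mul_right (H : End X)) 1
      rw [mul_one, sub_mul, one_mul, mul_assoc, h2, mul_one] at h5
      have h6 : tr X ((aeval (FE W X) (g ^ n) - H : End X)) =
        tr X (aeval (FE W X) (g ^ n) : End X) - tr X (H : X ⟶ X) := tr_sub _ _
      rw [h6, sub_eq_zero] at h5
      exact h5.symm
    rw [ht, h4, tr_poly]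
    apply Finset.sum_congr rfl
    intro z _
    by_cases h3 : ν W X z = 0
    · rw [h3]
      simp
    · have h4 := hz z h3
      have h5 : z ≠ 0 := by
        intro h6
        rw [h6, zero_mul] at h4
        exact zero_ne_one h4
      have h6 : aeval z g = z⁻¹ := by
        field_simp
        rw [mul_comm]
        exact h4
      rw [map_pow, h6]
  · intro z h h0
    have h4 := hz z h
    rw [h0, zero_mul] at h4
    exact zero_ne_one h4

/-- the multiplicity of 1 for a Hom object -/
lemma mult_hom (X Y : C) : (mult W (X ⊗ Yᘁ) : ℂ) =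
    ∑ z ∈ S W X, ∑ w ∈ S W Y, (ν W X z : ℂ) * (ν W Y w : ℂ) * (if z * w⁻¹ = 1 then 1 else 0) := by
  classical
  obtain ⟨P, h1, hP⟩ := exP ((W.even (X ⊗ Yᘁ) + W.odd (X ⊗ Yᘁ)).toFinset ∪
    Finset.image (fun p : ℂ × ℂ => p.1 * p.2⁻¹) (S W X ×ˢ S W Y))
  have e1 := mult_eq W (X ⊗ Yᘁ) P h1
    (fun z hz => hP z (Finset.mem_union_left _ (by simp [hz])))
    (fun z hz => hP z (Finset.mem_union_left _ (by simp [hz])))
  rw [← e1]
  have e2 : ∀ k, (t W (X ⊗ Yᘁ) k : ℂ) =
      ∑ z ∈ S W X, ∑ w ∈ S W Y, (ν W X z : ℂ) * (ν W Y w : ℂ) * (z * w⁻¹) ^ k := by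
    intro k
    rw [t_tensor]
    push_cast
    rw [(t_dual W Y).1 k]
    have e3 : (t W X k : ℂ) = ∑ z ∈ S W X, (ν W X z : ℂ) * z ^ k := by
      rw [t_formula, sum_nu]
      rfl
    rw [e3, Finset.sum_mul_sum]
    apply Finset.sum_congr rfl
    intro z _
    apply Finset.sum_congr rfl
    intro w _
    rw [mul_pow]
    ring
  have e3 : ∀ k ∈ P.support, P.coeff k * (t W (X ⊗ Yᘁ) k : ℂ) =
      ∑ z ∈ S W X, ∑ w ∈ S W Y, (ν W X z : ℂ) * (ν W Y w : ℂ) * (P.coeff k * (z * w⁻¹) ^ k) := by
    intro k _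
    rw [e2, Finset.mul_sum]
    apply Finset.sum_congr rfl
    intro z _
    rw [Finset.mul_sum]
    apply Finset.sum_congr rfl
    intro w _
    ring
  rw [Finset.sum_congr rfl e3, Finset.sum_comm]
  apply Finset.sum_congr rfl
  intro z hz
  rw [Finset.sum_comm]
  apply Finset.sum_congr rfl
  intro w hw
  rw [← Finset.mul_sum]
  congr 1
  have e4 : ∑ k ∈ P.support, P.coeff k * (z * w⁻¹) ^ k = P.eval (z * w⁻¹) := by
    rw [eval_eq_sum, Polynomial.sum]
  rw [e4]
  split_ifs with h
  · rw [h, h1]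
  · exact hP _ (Finset.mem_union_right _ (Finset.mem_image.mpr ⟨(z, w),
      Finset.mem_product.mpr ⟨hz, hw⟩, rfl⟩)) h

/-- the multiplicity of 1 in `X ⊗ X'` is the sum of the squares of the net multiplicities -/
theorem mult_square (X : C) : (mult W (X ⊗ Xᘁ) : ℤ) = ∑ z ∈ S W X, ν W X z ^ 2 := by
  have h1 := mult_hom W X X
  have h2 : (mult W (X ⊗ Xᘁ) : ℂ) = ∑ z ∈ S W X, (ν W X z : ℂ) ^ 2 := by
    rw [h1]
    refine Finset.sum_congr rfl (fun z hz => ?_)
    by_cases h0 : ν W X z = 0
    · rw [h0]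
      simp
    have hz0 := (t_dual W X).2 z h0
    rw [Finset.sum_eq_single z]
    · rw [mul_inv_cancel₀ hz0, if_pos rfl]
      ring
    · intro w _ hw
      rw [if_neg, mul_zero]
      intro h3
      apply hw
      have hw0 : w ≠ 0 := by
        rintro rfl
        simp at h3
      field_simp at h3
      exact h3.symm
    · intro h
      exact absurd hz h
  exact_mod_cast h2

end Split

/-- the lower bound: the powers of Frobenius -/
theorem card_le (X : C) : ((((S W X).filter (fun z => ν W X z ≠ 0)).card : ℕ) : Cardinal) ≤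
    Module.rank ℚ ((𝟙_ C ⟶ X ⊗ Xᘁ) ⧸ ntSections (X ⊗ Xᘁ)) := by
  classical
  set T := (S W X).filter (fun z => ν W X z ≠ 0) with hT
  let φ : (degreeLT ℚ T.card) →ₗ[ℚ] ((𝟙_ C ⟶ X ⊗ Xᘁ) ⧸ ntSections (X ⊗ Xᘁ)) :=
    (ntSections (X ⊗ Xᘁ)).mkQ ∘ₗ (nmL X X) ∘ₗ (aeval (FE W X)).toLinearMap ∘ₗ
      (degreeLT ℚ T.card).subtype
  have hφ : Function.Injective φ := by
    rw [injective_iff_map_eq_zero]
    intro g hg
    have h2 : nm ((aeval (FE W X) (g : ℚ[X]) : End X) : X ⟶ X) ∈ ntSections (X ⊗ Xᘁ) := by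
      rw [← Submodule.Quotient.mk_eq_zero]
      exact hg
    rw [nm_mem_iff] at h2
    apply Subtype.ext
    have h3 : (g : ℚ[X]).map (algebraMap ℚ ℂ) = 0 := by
      apply Polynomial.eq_zero_of_degree_lt_of_eval_finset_eq_zero T
      · rw [degree_map]
        exact Polynomial.mem_degreeLT.mp g.2
      · intro z hz
        rw [eval_map_algebraMap]
        exact root_of_nt W (g : ℚ[X]) h2 (Finset.mem_filter.mp hz).2
    exact (Polynomial.map_eq_zero _).mp h3
  have h2 := LinearMap.lift_rank_le_of_injective φ hφ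
  have h3 : Module.rank ℚ (degreeLT ℚ T.card) = (T.card : ℕ) := by
    rw [(degreeLTEquiv ℚ T.card).rank_eq]
    simp
  rwa [h3, Cardinal.lift_natCast, Cardinal.lift_uzero] at h2

end

end MotP.M73
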